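import Pool.Agent.helper13.U4.SpecD

set_option autoImplicit false

namespace Pool.Agent.U4

open Pool.Agent.UL

theorem DC2_aux (v : ℕ) (x : ℕ → ℕ → Bool) (hr0 : ∀ t ≤ v, x t 0 = true) (ρ σ a b : ℕ)
    (hρ : 3 ≤ ρ) (hσ : σ < v) (ha : a ≤ σ) (hb : b ≤ σ) (hab : a ≠ b)
    (xa : x a ρ = true) (xb : x b ρ = true) : TwoW v x ρ σ := by
  refine ⟨ρ, a, 0, σ - a, ρ, b, 0, σ - b, ⟨xa, hr0 _ (by omega), by omega, by omega, by omega,
    Or.inl ⟨by omega, by omega⟩⟩, ⟨xb, hr0 _ (by omega), by omega, by omega, by omega,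
    Or.inl ⟨by omega, by omega⟩⟩, by omega, by omega⟩

theorem DC2 : DC2_stmt := by
  intro k q h v x hP hL hH ρ σ h3 h2 h4 hv hσ
  have hk := hP.hk
  have hh := hP.hh
  have hq := hP.hq
  have hvv := hP.hv
  obtain ⟨k', rfl⟩ : ∃ k', k = k' + 2 := ⟨k - 2, by omega⟩
  obtain ⟨g, hg⟩ : ∃ g, h = 4 * g := ⟨2 ^ k', by rw [hh, pow_add]; ring⟩
  have hg1 : 1 ≤ g := by
    rcases Nat.eq_zero_or_pos g with h0 | h0
    · rw [h0] at hg
      have : 0 < 2 ^ (k' + 2) := by positivity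
      omega
    · exact h0
  obtain ⟨Q, rfl⟩ : ∃ Q, q = Q + 7 := ⟨q - 7, by omega⟩
  have hbig : 15 * h ≤ v + 1 := by
    have : 2 * h * (Q + 7) = 2 * (h * Q) + 14 * h := by ring
    have h0 : 0 ≤ h * Q := Nat.zero_le _
    omega
  by_cases c1 : ρ % 4 = 3
  · by_cases c2 : ρ = 2 * h - 1
    · subst c2
      exact DC2_aux v x hL.r0 _ σ (h + 0) (h + 1) h3 hσ (by omega) (by omega) (by omega)
        (hH.m1 0 (by omega)) (hH.m1 1 (by omega))
    · have hρ : ρ + 5 ≤ 2 * h := by omega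
      set j := Nat.log 2 ((ρ + 1) / 2) with hj
      have hpos : (ρ + 1) / 2 ≠ 0 := by omega
      have l1 : 2 ^ j ≤ (ρ + 1) / 2 := Nat.pow_log_le_self 2 hpos
      have l2 : (ρ + 1) / 2 < 2 ^ (j + 1) := Nat.lt_pow_succ_log_self (by norm_num) _
      rw [pow_succ] at l2
      have hj1 : 1 ≤ j := by
        rw [hj]
        apply Nat.le_log_of_pow_le (by norm_num)
        omega
      obtain ⟨j', hj'⟩ : ∃ j', j = j' + 1 := ⟨j - 1, by omega⟩
      obtain ⟨G, hG⟩ : ∃ G, 2 ^ j = 2 * G := ⟨2 ^ j', by rw [hj', pow_succ]; ring⟩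
      have hle : 2 * 2 ^ j ≤ h := by
        have h5 : 2 ^ (j + 1) < 2 ^ (k' + 3) := by
          have e1 : 2 ^ (k' + 3) = 2 * h := by rw [hh]; ring
          rw [e1, pow_succ]
          omega
        have h6 : j + 1 < k' + 3 := (Nat.pow_lt_pow_iff_right (by norm_num)).1 h5
        have h7 : 2 ^ (j + 1) ≤ 2 ^ (k' + 2) := Nat.pow_le_pow_right (by norm_num) (by omega)
        rw [← hh, pow_succ] at h7
        omega
      obtain ⟨i, hi⟩ : ∃ i, ρ = 2 * 2 ^ j - 1 + 4 * i := ⟨(ρ + 1 - 2 * 2 ^ j) / 4, by omega⟩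
      have hi4 : 4 * i + 4 ≤ 2 * 2 ^ j := by omega
      have x1 := hL.fe j hj1 hle (4 * i) (by omega) (by omega)
      have x2 := hL.ff j hj1 hle i hi4
      rw [← hi] at x1 x2
      exact DC2_aux v x hL.r0 _ σ _ _ h3 hσ (by omega) (by omega) (by omega) x1 x2
  · by_cases c2 : ρ = 2 * h
    · subst c2
      exact DC2_aux v x hL.r0 _ σ (h + 1) (h + 3) h3 hσ (by omega) (by omega) (by omega)
        (hH.a0 1 (by omega) (by norm_num)) (hH.a0 3 (by omega) (by norm_num))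
    · exact DC2_aux v x hL.r0 _ σ _ _ h3 hσ (by omega) (by omega) (by omega)
        (hL.fd 1 ρ (by norm_num) (by omega) (by omega) c1)
        (hL.fd 2 ρ (by norm_num) (by omega) (by omega) c1)

end Pool.Agent.U4
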